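import Pool.Agent.R244.PS.Final
import Pool.Agent.R244.PS.P_UNIF
import Pool.Agent.R244.PS.P_BAS
import Pool.Agent.R244.PS.P_PROJ
import Pool.Agent.R244.PS.P_MARK
import Pool.Agent.R244.PS.P_REC
import Pool.Agent.R244.PS.P_AC1
import Pool.Agent.R244.PS.P_AC2
import Pool.Agent.R244.PS.P_STAT
import Pool.Agent.R244.PS.P_SING
import Pool.Agent.R244.PS.P_SELFH
import Pool.Agent.R244.PS.P_POSH
import Pool.Agent.R244.PS.P_STOP
import Pool.Agent.R244.PS.P_RICHAC
import Pool.Agent.R244.PS.P_BAIRE
import Pool.Agent.R244.PS.P_SEP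
import Pool.Agent.R244.PS.P_SELF
import Pool.Agent.R244.PS.P_HD
import Pool.Agent.R244.PS.P_PACK

namespace Pool.Agent.Results.MP_203158_an.SingularSlices

open MeasureTheory Set Metric
open Pool.Agent.R244.PS

/-- Question Q1 of MP_203158_an, answer yes: there is a self-similar set in the plane, generated by
maps `x ↦ r j • x + w j` with `0 < r j < 1` and with pairwise disjoint images, of Hausdorff
dimension `s > 1`, and a unit vector `e`, such that the projection of the set to the line spanned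
by `e` has positive Lebesgue measure, the projection of the `s`-dimensional Hausdorff measure on
the set is singular, and the `(s - 1)`-dimensional packing measure of almost every nonempty slice
is infinite. -/
theorem result : ∃ (q : ℕ) (r : Fin q → ℝ) (w : Fin q → EuclideanSpace ℝ (Fin 2))
    (A : Set (EuclideanSpace ℝ (Fin 2))) (s : ℝ) (e : EuclideanSpace ℝ (Fin 2)),
    1 < s ∧ A.Nonempty ∧ IsCompact A ∧ (∀ j, 0 < r j ∧ r j < 1) ∧
    A = (⋃ j, (fun x => r j • x + w j) '' A) ∧
    (∀ i j, i ≠ j → Disjoint ((fun x => r i • x + w i) '' A) ((fun x => r j • x + w j) '' A)) ∧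
    dimH A = ENNReal.ofReal s ∧ ‖e‖ = 1 ∧
    0 < volume ((fun x => (inner ℝ e x : ℝ)) '' A) ∧
    (Measure.map (fun x => (inner ℝ e x : ℝ))
      ((Measure.hausdorffMeasure s : Measure (EuclideanSpace ℝ (Fin 2))).restrict A)).MutuallySingular
      (volume : Measure ℝ) ∧
    ∀ᵐ t : ℝ, t ∈ (fun x => (inner ℝ e x : ℝ)) '' A →
      packM (s - 1) (A ∩ {x | (inner ℝ e x : ℝ) = t}) = ⊤ := by
  have hB : S_BAS := t_BAS
  have hU : S_UNIF := t_UNIF
  have hM : S_MARK := t_MARK
  have hP : S_PROJ := t_PROJ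
  have hSep : S_SEP := t_SEP
  have hR : S_REC := t_REC hM
  have hSt : S_STAT := t_STAT hM hB
  have hH : S_SELFH := t_SELFH hSt hB
  have hPos : S_POSH := t_POSH hH hB hP
  have hStop : S_STOP := t_STOP hM hB
  have hRA : S_RICHAC := t_RICHAC hB hM hR hH hPos hStop
  have hD : S_DENR := t_DENR hU t_AC1 (t_AC2 hB) hRA
  have hG : S_GEN := t_BAIRE hB hD (t_SING hSt hB)
  exact t_MAIN hU hP hG (t_SELF hSep) hSep hB (t_HD hSep hU) (t_PACK hB hP hSep)

end Pool.Agent.Results.MP_203158_an.SingularSlices
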